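import Pool.Agent.H46.RF.Stm

set_option autoImplicit false

namespace H2.RF

open ZFSet (pair)
open H46.RF

theorem pra (hW : S_WRD) : S_PRA := by
  obtain ⟨-, -, hinj, -, -, -⟩ := hW
  intro c u v T H hT hH
  have key : ∀ r r' : ℕ → Bool, ∀ n k, (∀ i < n, r i = r' i) →
      (∀ j < k, c j < n ∧ u j < n ∧ v j < n) →
      ini (itm c u v r) k = ini (itm c u v r') k := by
    intro r r' n k h1 h2
    refine (hinj _ _ _ _).2 ⟨rfl, fun i hi => ?_⟩
    obtain ⟨a1, a2, a3⟩ := h2 i hi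
    simp only [itm]
    rw [h1 _ a1, h1 _ a2, h1 _ a3]
  refine ⟨⟨fun z hz => ?_, fun r n h => ?_⟩, ?_⟩
  · obtain ⟨r, n, h1, -⟩ := (hH z).1 hz
    exact ⟨r, n, h1⟩
  · obtain ⟨r', n', h1, h2⟩ := (hH _).1 h
    obtain ⟨h3, h4⟩ := (hinj _ _ _ _).1 h1
    subst h3
    refine (hH _).2 ⟨r', n, (hinj _ _ _ _).2 ⟨rfl, fun i hi => h4 i (by omega)⟩, fun k hk => ?_⟩
    exact h2 k fun j hj => ⟨by have := (hk j hj).1; omega, by have := (hk j hj).2.1; omega,
      by have := (hk j hj).2.2; omega⟩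
  · ext r
    simp only [body, Set.mem_setOf_eq, Set.mem_preimage]
    constructor
    · intro h k
      have hn : ∃ n, ∀ j < k, c j < n ∧ u j < n ∧ v j < n := by
        refine ⟨(Finset.range k).sup (fun j => c j + u j + v j) + 1, fun j hj => ?_⟩
        have h1 : c j + u j + v j ≤ (Finset.range k).sup (fun j => c j + u j + v j) :=
          Finset.le_sup (f := fun j => c j + u j + v j) (Finset.mem_range.2 hj)
        omega
      obtain ⟨n, hn⟩ := hn
      obtain ⟨r', n', h1, h2⟩ := (hH _).1 (h n)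
      obtain ⟨h3, h4⟩ := (hinj _ _ _ _).1 h1
      subst h3
      rw [key r r' n k h4 hn]
      exact h2 k hn
    · intro h n
      exact (hH _).2 ⟨r, n, rfl, fun k _ => h k⟩

end H2.RF
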